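import Pool.Agent.Y703.CT.StmE

/-!
# Positive density of a class of squarefree Eisenstein integers (job CT-CNT9)

The elements `(13 + 18 x) + 18 y w` with `0 ≤ x, y < R`: the norm is odd, prime to `3` and it is
divisible by `p²` for few of them.
-/

set_option autoImplicit false

open Finset

namespace Pool.Agent.Y145.CT9

open Pool.Agent.Y692.QS (Ei w nr nr_mul nr_nonneg isUnit_iff nr_zero_iff int_dvd)
open Pool.Agent.Y703.CT (ClsE S_CNT9)

/-- the norm form -/
def Nf (x y : ℕ) : ℤ := (13 + 18 * (x : ℤ)) ^ 2 - (13 + 18 * (x : ℤ)) * (18 * y) + (18 * (y : ℤ)) ^ 2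

/-- the element -/
def Df (x y : ℕ) : Ei := ⟨13 + 18 * x, 18 * y⟩

theorem nr_Df (x y : ℕ) : nr (Df x y) = Nf x y := rfl

theorem Nf_pos (x y : ℕ) : 0 < Nf x y := by
  unfold Nf
  nlinarith [sq_nonneg (13 + 18 * (x : ℤ) - 2 * (18 * (y : ℤ))), sq_nonneg (13 + 18 * (x : ℤ)),
    Int.natCast_nonneg x]

theorem Nf_le {x y R : ℕ} (hx : x < R) (hy : y < R) : Nf x y ≤ (18 * (R : ℤ)) ^ 2 := by
  unfold Nf
  have h1 : (x : ℤ) + 1 ≤ R := by exact_mod_cast hx
  have h2 : (y : ℤ) + 1 ≤ R := by exact_mod_cast hy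
  have h3 : (0 : ℤ) ≤ x := Int.natCast_nonneg x
  have h4 : (0 : ℤ) ≤ y := Int.natCast_nonneg y
  set a : ℤ := 13 + 18 * x with ha
  set b : ℤ := 18 * y with hb
  set M : ℤ := 18 * R with hM
  have a1 : 0 ≤ a := by omega
  have a2 : a ≤ M := by omega
  have b1 : 0 ≤ b := by omega
  have b2 : b ≤ M := by omega
  rcases le_total a b with h | h <;> nlinarith

theorem prime_facts {p : ℕ} (hp : p.Prime) {x y : ℕ} (h : (p : ℤ) ∣ Nf x y) : 5 ≤ p := by
  have h2 : p ≠ 2 := by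
    rintro rfl
    unfold Nf at h
    have e : (13 + 18 * (x : ℤ)) ^ 2 - (13 + 18 * (x : ℤ)) * (18 * y) + (18 * (y : ℤ)) ^ 2 =
      2 * (84 + 234 * x + 162 * x ^ 2 - (13 + 18 * (x : ℤ)) * (9 * y) + 162 * y ^ 2) + 1 := by ring
    rw [e] at h
    push_cast at h
    omega
  have h3 : p ≠ 3 := by
    rintro rfl
    unfold Nf at h
    have e : (13 + 18 * (x : ℤ)) ^ 2 - (13 + 18 * (x : ℤ)) * (18 * y) + (18 * (y : ℤ)) ^ 2 =
      3 * (56 + 156 * x + 108 * x ^ 2 - (13 + 18 * (x : ℤ)) * (6 * y) + 108 * y ^ 2) + 1 := by ring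
    rw [e] at h
    push_cast at h
    omega
  have h4 : p ≠ 4 := by
    rintro rfl
    norm_num at hp
  have := hp.two_le
  omega

/-- elements of one class modulo `m` -/
theorem one_class {m R : ℕ} (A : Finset ℕ) (hA : A ⊆ range R)
    (h : ∀ x ∈ A, ∀ y ∈ A, x % m = y % m) : A.card ≤ R / m + 1 := by
  rw [← card_range (R / m + 1)]
  refine card_le_card_of_injOn (fun x => x / m) ?_ ?_
  · intro x hx
    have h1 := mem_range.1 (hA hx)
    rw [mem_coe, mem_range]
    show x / m < R / m + 1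
    exact Nat.lt_succ_of_le (Nat.div_le_div_right h1.le)
  · intro x hx y hy hxy
    have h1 := h x hx y hy
    simp only at hxy
    rw [← Nat.div_add_mod x m, ← Nat.div_add_mod y m, hxy, h1]

/-- elements of two classes modulo `m` -/
theorem two_classes {m R : ℕ} (A : Finset ℕ) (hA : A ⊆ range R)
    (h : ∀ x ∈ A, ∀ y ∈ A, ∀ z ∈ A, x % m ≠ z % m → y % m ≠ z % m → x % m = y % m) :
    A.card ≤ 2 * (R / m + 1) := by
  rcases A.eq_empty_or_nonempty with rfl | ⟨z, hz⟩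
  · simp
  rw [← card_filter_add_card_filter_not (s := A) (fun x => x % m = z % m)]
  have h1 : (A.filter (fun x => x % m = z % m)).card ≤ R / m + 1 := by
    refine one_class _ ((filter_subset _ _).trans hA) ?_
    intro x hx y hy
    rw [(mem_filter.1 hx).2, (mem_filter.1 hy).2]
  have h2 : (A.filter (fun x => ¬ x % m = z % m)).card ≤ R / m + 1 := by
    refine one_class _ ((filter_subset _ _).trans hA) ?_
    intro x hx y hy
    rw [mem_filter] at hx hy
    exact h x hx.1 y hy.1 z hz hx.2 hy.2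
  omega

theorem mod_eq_of_dvd {m x y : ℕ} (h : (m : ℤ) ∣ 18 * ((x : ℤ) - y)) (hc : Nat.Coprime m 18) :
    x % m = y % m := by
  have h1 : IsCoprime (m : ℤ) 18 := by exact_mod_cast Nat.isCoprime_iff_coprime.2 hc
  have h2 : (m : ℤ) ∣ (x : ℤ) - y := h1.dvd_of_dvd_mul_left h
  have h3 : (y : ℤ) ≡ x [ZMOD m] := (Int.modEq_iff_dvd).2 h2
  have h4 : y ≡ x [MOD m] := (Int.natCast_modEq_iff).1 h3
  exact h4.symm

/-- the count for one prime -/
theorem count_p {p : ℕ} (hp : p.Prime) (h5 : 5 ≤ p) (R : ℕ) :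
    (((range R) ×ˢ (range R)).filter (fun q => ((p : ℤ) ^ 2) ∣ Nf q.1 q.2)).card ≤
      R * (2 * (R / p ^ 2 + 1)) + (R / p + 1) * (R / p + 1) := by
  classical
  have hpp : Prime (p : ℤ) := Nat.prime_iff_prime_int.1 hp
  have hc : Nat.Coprime p 18 := by
    rw [Nat.coprime_comm]
    have e : 18 = 2 * 3 ^ 2 := rfl
    rw [e]
    refine Nat.Coprime.mul_left ?_ (Nat.Coprime.pow_left 2 ?_)
    · exact (Nat.coprime_primes Nat.prime_two hp).2 (by omega)
    · exact (Nat.coprime_primes Nat.prime_three hp).2 (by omega)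
  have hp0 : 0 < p := hp.pos
  have h18 : ¬ (p : ℤ) ∣ 18 := by
    intro h
    have h1 : p ∣ 18 := by exact_mod_cast h
    have := Nat.Coprime.eq_one_of_dvd hc h1
    omega
  -- fibres
  have hfib : ∀ y ∈ range R, (((range R).filter (fun x => ((p : ℤ) ^ 2) ∣ Nf x y)).card ≤
      2 * (R / p ^ 2 + 1) + if p ∣ y then R / p + 1 else 0) := by
    intro y _
    by_cases hy : p ∣ y
    · rw [if_pos hy]
      refine le_trans (one_class (m := p) _ (filter_subset _ _) ?_) (by omega)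
      have key : ∀ x ∈ (range R).filter (fun x => ((p : ℤ) ^ 2) ∣ Nf x y),
          (p : ℤ) ∣ 13 + 18 * (x : ℤ) := by
        intro x hx
        have h1 := (mem_filter.1 hx).2
        have h2 : (p : ℤ) ∣ Nf x y := (dvd_pow_self _ (by norm_num)).trans h1
        have h3 : (p : ℤ) ∣ (y : ℤ) := by exact_mod_cast hy
        have h4 : (p : ℤ) ∣ (13 + 18 * (x : ℤ)) ^ 2 := by
          have e : (13 + 18 * (x : ℤ)) ^ 2 = Nf x y +
            (y : ℤ) * ((13 + 18 * (x : ℤ)) * 18 - 18 * (18 * y)) := by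
            unfold Nf; ring
          rw [e]
          exact dvd_add h2 (h3.mul_right _)
        exact hpp.dvd_of_dvd_pow h4
      intro x hx x' hx'
      refine mod_eq_of_dvd ?_ hc
      have := dvd_sub (key x hx) (key x' hx')
      have e : (13 + 18 * (x : ℤ)) - (13 + 18 * (x' : ℤ)) = 18 * ((x : ℤ) - x') := by ring
      rwa [e] at this
    · rw [if_neg hy, add_zero]
      have hpb : ¬ (p : ℤ) ∣ 18 * (y : ℤ) := by
        intro h
        rcases hpp.dvd_or_dvd h with h | h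
        · exact h18 h
        · exact hy (by exact_mod_cast h)
      refine two_classes _ (filter_subset _ _) ?_
      have hc2 : Nat.Coprime (p ^ 2) 18 := Nat.Coprime.pow_left 2 hc
      have key : ∀ x ∈ (range R).filter (fun x => ((p : ℤ) ^ 2) ∣ Nf x y),
          ∀ x' ∈ (range R).filter (fun x => ((p : ℤ) ^ 2) ∣ Nf x y),
          x % p ^ 2 ≠ x' % p ^ 2 →
          ((p ^ 2 : ℕ) : ℤ) ∣ (13 + 18 * (x : ℤ)) + (13 + 18 * (x' : ℤ)) - 18 * y := by
        intro x hx x' hx' hne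
        have h1 := (mem_filter.1 hx).2
        have h2 := (mem_filter.1 hx').2
        have h3 : ((p ^ 2 : ℕ) : ℤ) ∣ (18 * ((x : ℤ) - x')) *
            ((13 + 18 * (x : ℤ)) + (13 + 18 * (x' : ℤ)) - 18 * y) := by
          have e : (18 * ((x : ℤ) - x')) *
            ((13 + 18 * (x : ℤ)) + (13 + 18 * (x' : ℤ)) - 18 * y) = Nf x y - Nf x' y := by
            unfold Nf; ring
          rw [e]
          push_cast
          exact dvd_sub h1 h2
        by_cases h4 : (p : ℤ) ∣ 18 * ((x : ℤ) - x')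
        · -- then `p` does not divide the other factor
          have h5 : ¬ (p : ℤ) ∣ (13 + 18 * (x : ℤ)) + (13 + 18 * (x' : ℤ)) - 18 * y := by
            intro h5
            have h6 : (p : ℤ) ∣ 2 * (13 + 18 * (x : ℤ)) - 18 * y := by
              have e : 2 * (13 + 18 * (x : ℤ)) - 18 * y = 18 * ((x : ℤ) - x') +
                ((13 + 18 * (x : ℤ)) + (13 + 18 * (x' : ℤ)) - 18 * y) := by ring
              rw [e]
              exact dvd_add h4 h5
            have h7 : (p : ℤ) ∣ Nf x y := (dvd_pow_self _ (by norm_num)).trans h1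
            have h8 : (p : ℤ) ∣ 3 * (18 * (y : ℤ)) ^ 2 := by
              have e : 3 * (18 * (y : ℤ)) ^ 2 = 4 * Nf x y - (2 * (13 + 18 * (x : ℤ)) - 18 * y) *
                (2 * (13 + 18 * (x : ℤ)) - 18 * y) := by
                unfold Nf; ring
              rw [e]
              exact dvd_sub (h7.mul_left _) (h6.mul_left _)
            rcases hpp.dvd_or_dvd h8 with h | h
            · apply h18
              exact h.trans (by norm_num)
            · exact hpb (hpp.dvd_of_dvd_pow h)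
          exfalso
          apply hne
          refine mod_eq_of_dvd ?_ hc2
          have h6 : IsCoprime ((p ^ 2 : ℕ) : ℤ)
              ((13 + 18 * (x : ℤ)) + (13 + 18 * (x' : ℤ)) - 18 * y) := by
            push_cast
            exact IsCoprime.pow_left (hpp.irreducible.coprime_iff_not_dvd.2 h5)
          exact h6.dvd_of_dvd_mul_right h3
        · have h6 : IsCoprime ((p ^ 2 : ℕ) : ℤ) (18 * ((x : ℤ) - x')) := by
            push_cast
            exact IsCoprime.pow_left (hpp.irreducible.coprime_iff_not_dvd.2 h4)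
          exact h6.dvd_of_dvd_mul_left h3
      intro x hx x' hx' z hz h1 h2
      refine mod_eq_of_dvd ?_ hc2
      have h3 := dvd_sub (key x hx z hz h1) (key x' hx' z hz h2)
      have e : ((13 + 18 * (x : ℤ)) + (13 + 18 * (z : ℤ)) - 18 * y) -
        ((13 + 18 * (x' : ℤ)) + (13 + 18 * (z : ℤ)) - 18 * y) = 18 * ((x : ℤ) - x') := by ring
      rwa [e] at h3
  have hsum : (((range R) ×ˢ (range R)).filter (fun q => ((p : ℤ) ^ 2) ∣ Nf q.1 q.2)).card =
      ∑ y ∈ range R, ((range R).filter (fun x => ((p : ℤ) ^ 2) ∣ Nf x y)).card := by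
    rw [card_filter, sum_product_right]
    refine sum_congr rfl fun y _ => ?_
    rw [card_filter]
  rw [hsum]
  refine (sum_le_sum hfib).trans ?_
  rw [sum_add_distrib, sum_const, card_range, smul_eq_mul]
  refine Nat.add_le_add_left ?_ _
  rw [← sum_filter, sum_const, smul_eq_mul]
  refine Nat.mul_le_mul_right _ ?_
  refine one_class _ (filter_subset _ _) ?_
  intro x hx y hy
  rw [Nat.mod_eq_zero_of_dvd (mem_filter.1 hx).2, Nat.mod_eq_zero_of_dvd (mem_filter.1 hy).2]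

/-- the count for one prime, real form -/
theorem count_p' {p : ℕ} (hp : p.Prime) (h5 : 5 ≤ p) (R : ℕ) :
    ((((range R) ×ˢ (range R)).filter (fun q => ((p : ℤ) ^ 2) ∣ Nf q.1 q.2)).card : ℝ) ≤
      3 * (R : ℝ) ^ 2 * ((p : ℝ) ^ 2)⁻¹ + (4 * R + 1) := by
  have h1 : ((((range R) ×ˢ (range R)).filter (fun q => ((p : ℤ) ^ 2) ∣ Nf q.1 q.2)).card : ℝ) ≤
      ((R * (2 * (R / p ^ 2 + 1)) + (R / p + 1) * (R / p + 1) : ℕ) : ℝ) := by
    exact_mod_cast count_p hp h5 R
  refine h1.trans ?_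
  have hp1 : (1 : ℝ) ≤ p := by exact_mod_cast hp.one_lt.le
  have hp0 : (0 : ℝ) < p := by linarith
  have h2 : ((R / p ^ 2 : ℕ) : ℝ) ≤ (R : ℝ) / (p : ℝ) ^ 2 := by
    have := @Nat.cast_div_le ℝ _ _ _ R (p ^ 2)
    push_cast at this
    exact this
  have h3 : ((R / p : ℕ) : ℝ) ≤ (R : ℝ) / (p : ℝ) := Nat.cast_div_le
  have hR : (0 : ℝ) ≤ R := Nat.cast_nonneg R
  have h4 : (R : ℝ) / (p : ℝ) ≤ R := div_le_self hR hp1
  push_cast
  have h5 : (((R / p : ℕ) : ℝ) + 1) * (((R / p : ℕ) : ℝ) + 1) ≤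
      ((R : ℝ) / p + 1) * ((R : ℝ) / p + 1) := by gcongr
  have h6 : ((R : ℝ) / p + 1) * ((R : ℝ) / p + 1) ≤ (R : ℝ) ^ 2 * ((p : ℝ) ^ 2)⁻¹ + (2 * R + 1) := by
    have e : ((R : ℝ) / p + 1) * ((R : ℝ) / p + 1) = (R : ℝ) ^ 2 * ((p : ℝ) ^ 2)⁻¹ +
      (2 * ((R : ℝ) / p) + 1) := by
      field_simp
      ring
    rw [e]
    linarith
  have h7 : (R : ℝ) * (2 * (((R / p ^ 2 : ℕ) : ℝ) + 1)) ≤
      2 * ((R : ℝ) ^ 2 * ((p : ℝ) ^ 2)⁻¹) + 2 * R := by
    have e : 2 * ((R : ℝ) ^ 2 * ((p : ℝ) ^ 2)⁻¹) + 2 * R = R * (2 * ((R : ℝ) / (p : ℝ) ^ 2 + 1)) := by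
      rw [div_eq_mul_inv]; ring
    rw [e]
    gcongr
  linarith

/-- not squarefree -/
theorem exists_p {x y R : ℕ} (hx : x < R) (hy : y < R) (h : ¬ Squarefree (Df x y)) :
    ∃ p : ℕ, p.Prime ∧ 5 ≤ p ∧ p ≤ 18 * R ∧ ((p : ℤ) ^ 2) ∣ Nf x y := by
  rw [Squarefree] at h
  push Not at h
  obtain ⟨b, ⟨c, hb⟩, hbu⟩ := h
  have hn : Nf x y = nr b * nr b * nr c := by
    rw [← nr_Df, hb, nr_mul, nr_mul]
  have hpos := Nf_pos x y
  have hb1 : nr b ≠ 1 := fun h => hbu (isUnit_iff.2 h)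
  have hb0 := nr_nonneg b
  obtain ⟨k, hk⟩ := Int.eq_ofNat_of_zero_le hb0
  have hk1 : k ≠ 1 := by
    rintro rfl
    exact hb1 (by rw [hk]; rfl)
  obtain ⟨p, hp, hpk⟩ := Nat.exists_prime_and_dvd hk1
  have h1 : (p : ℤ) ∣ nr b := by rw [hk]; exact_mod_cast hpk
  have h2 : ((p : ℤ) ^ 2) ∣ Nf x y := by
    rw [hn, sq]
    exact (mul_dvd_mul h1 h1).mul_right _
  refine ⟨p, hp, prime_facts hp ((dvd_pow_self _ (by norm_num)).trans h2), ?_, h2⟩
  have h3 := Int.le_of_dvd hpos h2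
  have h4 := h3.trans (Nf_le hx hy)
  have h5 : p ^ 2 ≤ (18 * R) ^ 2 := by exact_mod_cast h4
  exact (Nat.pow_le_pow_iff_left (by norm_num)).1 h5

open scoped Classical in
/-- squarefree elements in the box -/
theorem good_count (R : ℕ) : (R : ℝ) ^ 2 / 4 - (4 * R + 1) * (Nat.primeCounting (18 * R) : ℝ) ≤
    ((((range R) ×ˢ (range R)).filter (fun q : ℕ × ℕ => Squarefree (Df q.1 q.2))).card : ℝ) := by
  set P : Finset ℕ := (Ioc 4 (18 * R)).filter Nat.Prime with hP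
  have hcover : ((range R) ×ˢ (range R)).filter (fun q => ¬ Squarefree (Df q.1 q.2)) ⊆
      P.biUnion (fun p => ((range R) ×ˢ (range R)).filter (fun q => ((p : ℤ) ^ 2) ∣ Nf q.1 q.2)) := by
    intro q hq
    rw [mem_filter, mem_product, mem_range, mem_range] at hq
    obtain ⟨p, hp, h5, hpR, hd⟩ := exists_p hq.1.1 hq.1.2 hq.2
    rw [mem_biUnion]
    refine ⟨p, ?_, ?_⟩
    · rw [hP, mem_filter, mem_Ioc]
      exact ⟨⟨by omega, hpR⟩, hp⟩
    · rw [mem_filter, mem_product, mem_range, mem_range]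
      exact ⟨hq.1, hd⟩
  have h1 : ((((range R) ×ˢ (range R)).filter (fun q => ¬ Squarefree (Df q.1 q.2))).card : ℝ) ≤
      ∑ p ∈ P, (3 * (R : ℝ) ^ 2 * ((p : ℝ) ^ 2)⁻¹ + (4 * R + 1)) := by
    have h2 := (card_le_card hcover).trans card_biUnion_le
    have h3 : ((((range R) ×ˢ (range R)).filter (fun q => ¬ Squarefree (Df q.1 q.2))).card : ℝ) ≤
        ∑ p ∈ P, ((((range R) ×ˢ (range R)).filter (fun q => ((p : ℤ) ^ 2) ∣ Nf q.1 q.2)).card : ℝ) := by
      exact_mod_cast h2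
    refine h3.trans (sum_le_sum fun p hp => ?_)
    rw [hP, mem_filter, mem_Ioc] at hp
    exact count_p' hp.2 (by omega) R
  have hR : (0 : ℝ) ≤ R := Nat.cast_nonneg R
  have h2 : ∑ p ∈ P, (3 * (R : ℝ) ^ 2 * ((p : ℝ) ^ 2)⁻¹ + (4 * R + 1)) ≤
      3 * (R : ℝ) ^ 2 * (1 / 4) + (4 * R + 1) * (Nat.primeCounting (18 * R) : ℝ) := by
    rw [sum_add_distrib, ← mul_sum, sum_const, nsmul_eq_mul]
    have h3 : ∑ p ∈ P, ((p : ℝ) ^ 2)⁻¹ ≤ 1 / 4 := by
      rcases Nat.eq_zero_or_pos R with rfl | hRpos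
      · rw [hP]; simp
      refine (sum_le_sum_of_subset_of_nonneg (filter_subset _ _)
        (fun _ _ _ => by positivity)).trans ?_
      refine (sum_Ioc_inv_sq_le_sub (α := ℝ) (k := 4) (n := 18 * R) (by norm_num) (by omega)).trans ?_
      have : (0 : ℝ) ≤ ((18 * R : ℕ) : ℝ)⁻¹ := by positivity
      push_cast at this ⊢
      linarith
    have h4 : (P.card : ℝ) ≤ (Nat.primeCounting (18 * R) : ℝ) := by
      have h5 : P.card ≤ Nat.primeCounting (18 * R) := by
        rw [Nat.primeCounting, Nat.primeCounting', Nat.count_eq_card_filter_range]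
        refine card_le_card ?_
        intro p hp
        rw [hP, mem_filter, mem_Ioc] at hp
        rw [mem_filter, mem_range]
        exact ⟨by omega, hp.2⟩
      exact_mod_cast h5
    have h5 : 3 * (R : ℝ) ^ 2 * ∑ p ∈ P, ((p : ℝ) ^ 2)⁻¹ ≤ 3 * (R : ℝ) ^ 2 * (1 / 4) := by gcongr
    have h6 : (P.card : ℝ) * (4 * R + 1) ≤ (4 * R + 1) * (Nat.primeCounting (18 * R) : ℝ) := by
      rw [mul_comm]
      gcongr
    linarith
  have h3 : ((((range R) ×ˢ (range R)).filter (fun q => Squarefree (Df q.1 q.2))).card : ℝ) +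
      ((((range R) ×ˢ (range R)).filter (fun q => ¬ Squarefree (Df q.1 q.2))).card : ℝ) =
      (R : ℝ) ^ 2 := by
    have h4 := card_filter_add_card_filter_not (s := (range R) ×ˢ (range R))
      (fun q => Squarefree (Df q.1 q.2))
    rw [card_product, card_range] at h4
    rw [sq]
    exact_mod_cast h4
  linarith

/-- few primes -/
theorem ev_primes : ∀ᶠ R : ℕ in Filter.atTop,
    (4 * (R : ℝ) + 1) * (Nat.primeCounting (18 * R) : ℝ) ≤ (R : ℝ) ^ 2 / 8 := by
  have h1 := Chebyshev.eventually_primeCounting_le (ε := 1) one_pos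
  have h2 : Filter.Tendsto (fun R : ℕ => 18 * (R : ℝ)) Filter.atTop Filter.atTop :=
    tendsto_natCast_atTop_atTop.const_mul_atTop (by norm_num)
  have h3 := h2.eventually h1
  have h4 : ∀ᶠ R : ℕ in Filter.atTop, (18000 : ℝ) ≤ Real.log (18 * (R : ℝ)) :=
    (Real.tendsto_log_atTop.comp h2).eventually_ge_atTop _
  filter_upwards [h3, h4, Filter.eventually_ge_atTop 1] with R h5 h6 h7
  have e : ⌊18 * (R : ℝ)⌋₊ = 18 * R := by
    have : (18 * (R : ℝ)) = ((18 * R : ℕ) : ℝ) := by push_cast; ring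
    rw [this, Nat.floor_natCast]
  rw [e] at h5
  have hR : (1 : ℝ) ≤ R := by exact_mod_cast h7
  have hlog4 : Real.log 4 ≤ 3 := by
    have := Real.log_le_sub_one_of_pos (show (0 : ℝ) < 4 by norm_num)
    linarith
  have h8 : (Nat.primeCounting (18 * R) : ℝ) ≤ (R : ℝ) / 250 := by
    refine h5.trans ?_
    rw [div_le_iff₀ (by linarith)]
    have h9 : (Real.log 4 + 1) * (18 * (R : ℝ)) ≤ 4 * (18 * (R : ℝ)) := by
      gcongr
      linarith
    have h10 : (R : ℝ) / 250 * 18000 ≤ (R : ℝ) / 250 * Real.log (18 * (R : ℝ)) := by gcongr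
    linarith
  calc (4 * (R : ℝ) + 1) * (Nat.primeCounting (18 * R) : ℝ) ≤ (5 * R) * ((R : ℝ) / 250) := by
        gcongr
        linarith
    _ ≤ (R : ℝ) ^ 2 / 8 := by nlinarith

theorem cls_of {x y : ℕ} (h : Squarefree (Df x y)) : ClsE (Df x y) := by
  refine ⟨?_, h, ?_⟩
  · have h1 : ((3 : ℤ) : Ei) ∣ Df x y - 1 := by
      rw [int_dvd]
      constructor
      · refine ⟨4 + 6 * x, ?_⟩
        rw [QuadraticAlgebra.re_sub]
        show (13 + 18 * (x : ℤ)) - 1 = _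
        ring
      · refine ⟨6 * y, ?_⟩
        rw [QuadraticAlgebra.im_sub]
        show (18 * (y : ℤ)) - 0 = _
        ring
    exact_mod_cast h1
  · rw [nr_Df]
    intro h1
    unfold Nf at h1
    have e : (13 + 18 * (x : ℤ)) ^ 2 - (13 + 18 * (x : ℤ)) * (18 * y) + (18 * (y : ℤ)) ^ 2 - 1 =
      9 * (18 + 52 * x + 36 * x ^ 2 - (13 + 18 * (x : ℤ)) * (2 * y) + 36 * y ^ 2) + 6 := by ring
    rw [e] at h1
    omega

theorem finite_nr (X : ℕ) : {D : Ei | nr D ≤ X ∧ ClsE D}.Finite := by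
  have h1 : Set.Finite {q : ℤ × ℤ | q.1 ∈ Set.Icc (-(2 * (X : ℤ))) (2 * X) ∧
      q.2 ∈ Set.Icc (-(2 * (X : ℤ))) (2 * X)} :=
    (Set.finite_Icc _ _).prod (Set.finite_Icc _ _)
  refine Set.Finite.of_injOn (f := fun D : Ei => (D.re, D.im)) ?_ ?_ h1
  · rintro D ⟨hD, -⟩
    have h2 : D.re ^ 2 - D.re * D.im + D.im ^ 2 ≤ X := hD
    have hX : (0 : ℤ) ≤ X := Int.natCast_nonneg X
    have h3 : 3 * D.im ^ 2 ≤ 4 * X := by nlinarith [sq_nonneg (2 * D.re - D.im)]
    have h4 : 3 * D.re ^ 2 ≤ 4 * X := by nlinarith [sq_nonneg (2 * D.im - D.re)]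
    simp only [Set.mem_Icc, Set.mem_ofPred_eq]
    refine ⟨⟨?_, ?_⟩, ?_, ?_⟩ <;> nlinarith
  · intro a _ b _ hab
    simp only [Prod.mk.injEq] at hab
    exact QuadraticAlgebra.ext hab.1 hab.2

open scoped Classical in
/-- CT-CNT9 -/
theorem cnt9 : S_CNT9 := by
  obtain ⟨R₀, hR₀⟩ := Filter.eventually_atTop.1 ev_primes
  refine ⟨1 / 10368, by norm_num, (36 * (R₀ + 2)) ^ 2, fun X hX => ?_⟩
  set R : ℕ := Nat.sqrt X / 18 with hR
  have hs : 36 * (R₀ + 2) ≤ Nat.sqrt X := by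
    rw [Nat.le_sqrt']
    exact hX
  have hRR : R₀ ≤ R := by omega
  have h1 := hR₀ R hRR
  have h2 := good_count R
  have h3 : (R : ℝ) ^ 2 / 8 ≤
      ((((range R) ×ˢ (range R)).filter (fun q => Squarefree (Df q.1 q.2))).card : ℝ) := by
    linarith
  have h4 : ((((range R) ×ˢ (range R)).filter (fun q => Squarefree (Df q.1 q.2))).image
      (fun q => Df q.1 q.2) : Set Ei) ⊆ {D : Ei | nr D ≤ X ∧ ClsE D} := by
    intro D hD
    rw [mem_coe, mem_image] at hD
    obtain ⟨q, hq, rfl⟩ := hD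
    rw [mem_filter, mem_product, mem_range, mem_range] at hq
    refine ⟨?_, cls_of hq.2⟩
    rw [nr_Df]
    refine (Nf_le hq.1.1 hq.1.2).trans ?_
    have h5 : 18 * R ≤ Nat.sqrt X := by omega
    have h6 : (18 * R) ^ 2 ≤ X := (Nat.pow_le_pow_left h5 2).trans (Nat.sqrt_le' X)
    exact_mod_cast h6
  have h5 := Set.ncard_le_ncard h4 (finite_nr X)
  rw [Set.ncard_coe_finset, card_image_of_injective] at h5
  · have h6 : ((((range R) ×ˢ (range R)).filter (fun q => Squarefree (Df q.1 q.2))).card : ℝ) ≤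
        ({D : Ei | nr D ≤ X ∧ ClsE D}.ncard : ℝ) := by exact_mod_cast h5
    refine le_trans ?_ (h3.trans h6)
    -- `X ≤ 1296 R ^ 2`
    have h7 : Nat.sqrt X + 1 ≤ 36 * R := by omega
    have h8 : X ≤ (36 * R) ^ 2 := by
      have h9 : X < (Nat.sqrt X + 1) ^ 2 := Nat.lt_succ_sqrt' X
      exact h9.le.trans (Nat.pow_le_pow_left h7 2)
    have h9 : (X : ℝ) ≤ (36 * (R : ℝ)) ^ 2 := by exact_mod_cast h8
    linarith
  · intro q q' h
    have e1 := congrArg QuadraticAlgebra.re h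
    have e2 := congrArg QuadraticAlgebra.im h
    simp only [Df] at e1 e2
    refine Prod.ext ?_ ?_ <;> omega

end Pool.Agent.Y145.CT9
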