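import Pool.Agent.Y703.CT.StmA
import Pool.Agent.Y809.BSD14.E0

/-!
# Tamagawa numbers of `y² + D y = x³` (job CT-TAM of project CT)
-/

set_option autoImplicit false

open scoped Classical

namespace Pool.Agent.Y145.CT

open Pool.Agent.Y700 (SingRed E0 tam S_E0 PtP)
open Pool.Agent.Y703.CT (WD Base tamProd S_TAM)
open Pool.Agent.Y809.BSD14 (nadd nsub nmul npow nneg ladd lsub lmul lmul' norm_eq_of_lt)
open WeierstrassCurve.Affine (Point)

section coeffs

variable {K : Type} [Field K] (D : ℤ)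

theorem c1 : ((WD D).map (Int.castRingHom K)).a₁ = 0 := by
  rw [WeierstrassCurve.map_a₁]; simp [WD]

theorem c2 : ((WD D).map (Int.castRingHom K)).a₂ = 0 := by
  rw [WeierstrassCurve.map_a₂]; simp [WD]

theorem c3 : ((WD D).map (Int.castRingHom K)).a₃ = D := by
  rw [WeierstrassCurve.map_a₃]; simp [WD]

theorem c4 : ((WD D).map (Int.castRingHom K)).a₄ = 0 := by
  rw [WeierstrassCurve.map_a₄]; simp [WD]

theorem c6 : ((WD D).map (Int.castRingHom K)).a₆ = 0 := by
  rw [WeierstrassCurve.map_a₆]; simp [WD]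

end coeffs

variable {p : ℕ} [Fact p.Prime] {D : ℤ}

/-- `P` is the affine point `(x, y)` -/
def At (P : PtP (WD D) p) (x y : ℚ_[p]) : Prop := ∃ h, P = Point.some x y h

theorem At.eqn {P : PtP (WD D) p} {x y : ℚ_[p]} (h : At P x y) : y ^ 2 + D * y = x ^ 3 := by
  obtain ⟨hn, -⟩ := h
  have h1 := (WeierstrassCurve.Affine.equation_iff _ _).1 hn.1
  rw [c1, c2, c3, c4, c6] at h1
  linear_combination h1

theorem exists_at {P : PtP (WD D) p} (h : P ≠ 0) : ∃ x y, At P x y := by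
  rcases P with _ | ⟨x, y, hn⟩
  · exact absurd rfl h
  · exact ⟨x, y, hn, rfl⟩

theorem At.ext {P P' : PtP (WD D) p} {x y : ℚ_[p]} (h : At P x y) (h' : At P' x y) : P = P' := by
  obtain ⟨hn, rfl⟩ := h
  obtain ⟨hn', rfl⟩ := h'
  rfl

theorem At.neg {P : PtP (WD D) p} {x y : ℚ_[p]} (h : At P x y) : At (-P) x (-y - D) := by
  obtain ⟨hn, rfl⟩ := h
  rw [Point.neg_some]
  have e : ((WD D).map (Int.castRingHom ℚ_[p])).toAffine.negY x y = -y - D := by
    rw [WeierstrassCurve.Affine.negY, c1, c3]; ring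
  have hn2 := (WeierstrassCurve.Affine.nonsingular_neg _ _).2 hn
  rw [e] at hn2
  refine ⟨hn2, ?_⟩
  congr 1

theorem At.add {P P' : PtP (WD D) p} {x y x' y' : ℚ_[p]} (h : At P x y) (h' : At P' x' y')
    (hne : x ≠ x') : ∃ y3, At (P + P') (((y - y') / (x - x')) ^ 2 - x - x') y3 := by
  obtain ⟨hn, rfl⟩ := h
  obtain ⟨hn', rfl⟩ := h'
  rw [Point.add_of_X_ne hne]
  have e : ((WD D).map (Int.castRingHom ℚ_[p])).toAffine.addX x x'
      (((WD D).map (Int.castRingHom ℚ_[p])).toAffine.slope x x' y y') =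
      ((y - y') / (x - x')) ^ 2 - x - x' := by
    rw [WeierstrassCurve.Affine.addX, WeierstrassCurve.Affine.slope_of_X_ne hne, c1, c2]
    ring
  rw [← e]
  exact ⟨_, _, rfl⟩

theorem At.dbl {P : PtP (WD D) p} {x y : ℚ_[p]} (h : At P x y) (hy : 2 * y + D ≠ 0) :
    ∃ y3, At (P + P) ((3 * x ^ 2 / (2 * y + D)) ^ 2 - x - x) y3 := by
  obtain ⟨hn, rfl⟩ := h
  have hy' : y ≠ ((WD D).map (Int.castRingHom ℚ_[p])).toAffine.negY x y := by
    rw [WeierstrassCurve.Affine.negY, c1, c3]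
    intro h
    apply hy
    linear_combination h
  rw [Point.add_self_of_Y_ne hy']
  have e : ((WD D).map (Int.castRingHom ℚ_[p])).toAffine.addX x x
      (((WD D).map (Int.castRingHom ℚ_[p])).toAffine.slope x x y y) =
      (3 * x ^ 2 / (2 * y + D)) ^ 2 - x - x := by
    rw [WeierstrassCurve.Affine.addX, WeierstrassCurve.Affine.slope_of_Y_ne rfl hy',
      WeierstrassCurve.Affine.negY, c1, c2, c3, c4]
    have h2 : y - (-y - 0 * x - D) = 2 * y + D := by ring
    rw [h2]
    ring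
  rw [← e]
  exact ⟨_, _, rfl⟩

theorem mem_iff (hE : S_E0) {P : PtP (WD D) p} {x y : ℚ_[p]} (h : At P x y) :
    P ∈ E0 (WD D) p ↔ ¬ SingRed (WD D) p x y := by
  obtain ⟨hn, hP⟩ := h
  rw [hE]
  constructor
  · intro h1
    exact h1 x y hn hP
  · intro h1 x' y' h' e
    rw [hP] at e
    injection e with e1 e2
    rw [← e1, ← e2]
    exact h1

theorem sing_iff {x y : ℚ_[p]} : SingRed (WD D) p x y ↔
    ‖x‖ ≤ 1 ∧ ‖y‖ ≤ 1 ∧ ‖3 * x ^ 2‖ < 1 ∧ ‖2 * y + D‖ < 1 := by
  unfold SingRed WD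
  simp only [Int.cast_zero, zero_mul, mul_zero, zero_sub, add_zero, norm_neg]

/-! ### Valuations -/

theorem norm_lt_one_iff_val {z : ℚ_[p]} (hz : z ≠ 0) : ‖z‖ < 1 ↔ 1 ≤ z.valuation := by
  have hp1 : (1 : ℝ) < p := by exact_mod_cast (Fact.out : p.Prime).one_lt
  rw [Padic.norm_eq_zpow_neg_valuation hz, ← zpow_zero (p : ℝ), zpow_lt_zpow_iff_right₀ hp1]
  omega

theorem one_le_norm_iff_val {z : ℚ_[p]} (hz : z ≠ 0) : 1 ≤ ‖z‖ ↔ z.valuation ≤ 0 := by
  rw [← not_lt, norm_lt_one_iff_val hz]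
  omega

theorem val_neg (z : ℚ_[p]) : (-z).valuation = z.valuation := by
  rcases eq_or_ne z 0 with rfl | hz
  · simp
  have hp1 : (1 : ℝ) < p := by exact_mod_cast (Fact.out : p.Prime).one_lt
  have h := norm_neg z
  rw [Padic.norm_eq_zpow_neg_valuation hz, Padic.norm_eq_zpow_neg_valuation (neg_ne_zero.2 hz)] at h
  have := zpow_right_injective₀ (by linarith) hp1.ne' h
  omega

/-- the heart of the matter at the primes dividing `D` -/
theorem trans_norm {x y d : ℚ_[p]} (hd : d ≠ 0) (h1 : 1 ≤ d.valuation) (h2 : d.valuation ≤ 2)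
    (hx : x ≠ 0) (hxl : ‖x‖ < 1) (he : y ^ 2 + d * y = x ^ 3) :
    1 ≤ ‖d * (y + d) / x ^ 2‖ ∨ 1 ≤ ‖d * y / x ^ 2‖ := by
  have he' : y * (y + d) = x ^ 3 := by rw [← he]; ring
  have hx3 : x ^ 3 ≠ 0 := pow_ne_zero 3 hx
  have hy : y ≠ 0 := by
    rintro rfl
    apply hx3
    rw [← he', zero_mul]
  have hyd : y + d ≠ 0 := by
    intro h
    apply hx3
    rw [← he', h, mul_zero]
  have hx2 : x ^ 2 ≠ 0 := pow_ne_zero 2 hx
  rw [one_le_norm_iff_val (div_ne_zero (mul_ne_zero hd hyd) hx2),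
    one_le_norm_iff_val (div_ne_zero (mul_ne_zero hd hy) hx2)]
  rw [norm_lt_one_iff_val hx] at hxl
  have v1 : y.valuation + (y + d).valuation = 3 * x.valuation := by
    rw [← Padic.valuation_mul hy hyd, he', Padic.valuation_pow]
    norm_num
  have v2 : (d * (y + d) / x ^ 2).valuation = d.valuation + (y + d).valuation -
      2 * x.valuation := by
    rw [div_eq_mul_inv, Padic.valuation_mul (mul_ne_zero hd hyd) (inv_ne_zero hx2),
      Padic.valuation_mul hd hyd, Padic.valuation_inv, Padic.valuation_pow]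
    push_cast
    ring
  have v3 : (d * y / x ^ 2).valuation = d.valuation + y.valuation - 2 * x.valuation := by
    rw [div_eq_mul_inv, Padic.valuation_mul (mul_ne_zero hd hy) (inv_ne_zero hx2),
      Padic.valuation_mul hd hy, Padic.valuation_inv, Padic.valuation_pow]
    push_cast
    ring
  have u1 : min y.valuation d.valuation ≤ (y + d).valuation := Padic.le_valuation_add hyd
  have u2 : min (y + d).valuation d.valuation ≤ y.valuation := by
    have e : (y + d) + -d = y := by ring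
    have h := Padic.le_valuation_add (x := y + d) (y := -d) (by rw [e]; exact hy)
    rwa [e, val_neg] at h
  have u3 : min (y + d).valuation y.valuation ≤ d.valuation := by
    have e : (y + d) + -y = d := by ring
    have h := Padic.le_valuation_add (x := y + d) (y := -y) (by rw [e]; exact hd)
    rwa [e, val_neg] at h
  rw [v2, v3]
  omega

/-- index from a generator of the quotient -/
theorem index_of_gen {G : Type} [AddCommGroup G] (H : AddSubgroup G) (T : G) (n : ℕ)
    (hn : n.Prime) (hT : T ∉ H) (hnT : n • T ∈ H) (hgen : ∀ P : G, ∃ k : ℤ, P - k • T ∈ H) :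
    H.index = n := by
  have hfact : Fact n.Prime := ⟨hn⟩
  have h1 : addOrderOf (QuotientAddGroup.mk T : G ⧸ H) = n := by
    refine addOrderOf_eq_prime ?_ ?_
    · rw [← QuotientAddGroup.mk_nsmul]
      exact (QuotientAddGroup.eq_zero_iff _).2 hnT
    · intro h
      exact hT ((QuotientAddGroup.eq_zero_iff _).1 h)
  rw [AddSubgroup.index, ← h1]
  symm
  refine addOrderOf_eq_card_of_forall_mem_zmultiples fun q => ?_
  obtain ⟨P, rfl⟩ := QuotientAddGroup.mk_surjective q
  obtain ⟨k, hk⟩ := hgen P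
  refine ⟨k, ?_⟩
  have h2 := (QuotientAddGroup.eq_zero_iff (P - k • T)).2 hk
  simp only
  rw [QuotientAddGroup.mk_sub, sub_eq_zero] at h2
  rw [h2, QuotientAddGroup.mk_zsmul]

/-! ### The primes dividing `D` -/

theorem exists_T (hD : (D : ℚ_[p]) ≠ 0) : ∃ T : PtP (WD D) p, At T 0 0 := by
  have hn : ((WD D).map (Int.castRingHom ℚ_[p])).toAffine.Nonsingular (0 : ℚ_[p]) 0 := by
    rw [WeierstrassCurve.Affine.nonsingular_iff', WeierstrassCurve.Affine.equation_iff, c1, c2, c3,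
      c4, c6]
    refine ⟨by ring, Or.inr ?_⟩
    have h2 : (2 : ℚ_[p]) * 0 + 0 * 0 + D = D := by ring
    rw [h2]
    exact hD
  exact ⟨Point.some _ _ hn, hn, rfl⟩

theorem T_add_T (hD : (D : ℚ_[p]) ≠ 0) {T : PtP (WD D) p} (hT : At T 0 0) : T + T = -T := by
  have h2 : (2 : ℚ_[p]) * 0 + D ≠ 0 := by rwa [mul_zero, zero_add]
  obtain ⟨y3, h3⟩ := hT.dbl h2
  have e0 : ((3 : ℚ_[p]) * 0 ^ 2 / (2 * 0 + D)) ^ 2 - 0 - 0 = 0 := by
    simp
  rw [e0] at h3
  have e1 : y3 * (y3 + D) = 0 := by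
    have := h3.eqn
    linear_combination this
  rcases mul_eq_zero.1 e1 with h | h
  · rw [h] at h3
    exfalso
    have h4 : T + T = T := h3.ext hT
    have h5 : T = 0 := by simpa using h4
    rw [h5] at hT
    obtain ⟨hn, h6⟩ := hT
    exact absurd h6.symm (Point.some_ne_zero _)
  · have h4 : y3 = -0 - (D : ℚ_[p]) := by linear_combination h
    rw [h4] at h3
    exact h3.ext hT.neg

theorem tam_dvd (hE : S_E0) (hp3 : p ≠ 3) (h1 : (p : ℤ) ∣ D) (h3 : ¬ (p : ℤ) ^ 3 ∣ D) :
    tam (WD D) p = 3 := by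
  have hD0 : D ≠ 0 := by rintro rfl; exact h3 (dvd_zero _)
  have hD : (D : ℚ_[p]) ≠ 0 := by exact_mod_cast hD0
  have hp1 : (1 : ℝ) < p := by exact_mod_cast (Fact.out : p.Prime).one_lt
  have hn := Padic.norm_eq_zpow_neg_valuation hD
  have hv1 : 1 ≤ (D : ℚ_[p]).valuation := by
    have h := (Padic.norm_int_le_pow_iff_dvd (p := p) D 1).2 (by simpa using h1)
    rw [hn, zpow_le_zpow_iff_right₀ hp1] at h
    push_cast at h
    omega
  have hv2 : (D : ℚ_[p]).valuation ≤ 2 := by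
    have h := mt (Padic.norm_int_le_pow_iff_dvd (p := p) D 3).1 (by simpa using h3)
    rw [hn, zpow_le_zpow_iff_right₀ hp1] at h
    push_cast at h
    omega
  have hDl : ‖(D : ℚ_[p])‖ < 1 := (norm_lt_one_iff_val hD).2 hv1
  have n3 : ‖(3 : ℚ_[p])‖ = 1 := by
    refine le_antisymm (by exact_mod_cast Padic.norm_int_le_one (p := p) 3) (not_lt.1 fun h => ?_)
    have h4 : (p : ℤ) ∣ 3 := by
      refine Padic.norm_intCast_lt_one_iff.1 ?_
      exact_mod_cast h
    have h5 : p ∣ 3 := by exact_mod_cast h4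
    exact hp3 ((Nat.prime_dvd_prime_iff_eq Fact.out Nat.prime_three).1 h5)
  have hsing : ∀ x y : ℚ_[p], y ^ 2 + D * y = x ^ 3 → (SingRed (WD D) p x y ↔ ‖x‖ < 1) := by
    intro x y he
    rw [sing_iff]
    constructor
    · rintro ⟨-, -, h, -⟩
      rw [norm_mul, n3, one_mul, norm_pow] at h
      by_contra hc
      rw [not_lt] at hc
      have := one_le_pow₀ (n := 2) hc
      linarith
    · intro hx
      have hy : ‖y‖ < 1 := by
        by_contra hc
        rw [not_lt] at hc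
        have h4 : ‖(D : ℚ_[p]) * y‖ < ‖y ^ 2‖ := by
          rw [norm_mul, norm_pow]
          nlinarith
        have h5 := norm_eq_of_lt h4
        rw [he, norm_pow, norm_pow] at h5
        have h6 : ‖x‖ ^ 3 < 1 := pow_lt_one₀ (norm_nonneg _) hx (by norm_num)
        have h7 := one_le_pow₀ (n := 2) hc
        linarith
      refine ⟨hx.le, hy.le, ?_, ladd (lmul Pool.Agent.Y809.BSD14.n2 hy) hDl⟩
      rw [pow_two]
      exact lmul n3.le (lmul hx.le hx)
  have hmem : ∀ {P : PtP (WD D) p} {x y : ℚ_[p]}, At P x y →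
      (P ∈ E0 (WD D) p ↔ ¬ ‖x‖ < 1) := by
    intro P x y h
    rw [mem_iff hE h, hsing x y h.eqn]
  obtain ⟨T, hT⟩ := exists_T (p := p) hD
  have hTn := hT.neg
  have hTT := T_add_T hD hT
  rw [tam]
  refine index_of_gen _ T 3 Nat.prime_three ?_ ?_ ?_
  · rw [hmem hT, norm_zero]
    norm_num
  · have : 3 • T = T + T + T := by abel
    rw [this, hTT, neg_add_cancel]
    exact zero_mem _
  · intro P
    by_cases hP : P ∈ E0 (WD D) p
    · exact ⟨0, by simpa using hP⟩
    have hP0 : P ≠ 0 := fun h0 => hP (by rw [h0]; exact zero_mem _)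
    obtain ⟨x, y, hA⟩ := exists_at hP0
    have hx := (not_iff_comm.1 (hmem hA).symm).1 hP
    by_cases hx0 : x = 0
    · subst hx0
      have e1 : y * (y + D) = 0 := by
        have := hA.eqn
        linear_combination this
      rcases mul_eq_zero.1 e1 with h | h
      · rw [h] at hA
        refine ⟨1, ?_⟩
        rw [one_zsmul, hA.ext hT, sub_self]
        exact zero_mem _
      · have h4 : y = -0 - (D : ℚ_[p]) := by linear_combination h
        rw [h4] at hA
        refine ⟨-1, ?_⟩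
        rw [neg_one_zsmul, hA.ext hTn, sub_self]
        exact zero_mem _
    · have hx2 : x ^ 2 ≠ 0 := pow_ne_zero 2 hx0
      have he := hA.eqn
      rcases trans_norm hD hv1 hv2 hx0 hx he with h | h
      · refine ⟨1, ?_⟩
        rw [one_zsmul, sub_eq_add_neg]
        obtain ⟨y3, h3⟩ := hA.add hTn hx0
        rw [hmem h3, not_lt]
        have e : ((y - (-0 - D)) / (x - 0)) ^ 2 - x - 0 = D * (y + D) / x ^ 2 := by
          rw [sub_zero, sub_zero, div_pow, eq_div_iff hx2, sub_mul, div_mul_cancel₀ _ hx2]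
          linear_combination he
        rw [e]
        exact h
      · refine ⟨-1, ?_⟩
        rw [neg_one_zsmul, sub_neg_eq_add]
        obtain ⟨y3, h3⟩ := hA.add hT hx0
        rw [hmem h3, not_lt]
        have e : ((y - 0) / (x - 0)) ^ 2 - x - 0 = -(D * y / x ^ 2) := by
          rw [sub_zero, sub_zero, sub_zero, div_pow, ← neg_div, eq_div_iff hx2, sub_mul,
            div_mul_cancel₀ _ hx2]
          linear_combination he
        rw [e, norm_neg]
        exact h

/-! ### The prime `3` -/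

theorem z3a : ∀ w : ZMod 3, w ≠ 0 → w ^ 2 - 1 = 0 := by decide

theorem z3b : ∀ w : ZMod 3, w ^ 3 + 1 = 0 → w + 1 = 0 := by decide

section three

variable [Fact (Nat.Prime 3)]

theorem nt : ‖(3 : ℚ_[3])‖ = 1 / 3 := by
  have := Padic.norm_p (p := 3)
  simpa using this

theorem ntlt : ‖(3 : ℚ_[3])‖ < 1 := by rw [nt]; norm_num

theorem nu (z : ℤ) (h : ¬ (3 : ℤ) ∣ z) : ‖(z : ℚ_[3])‖ = 1 := by
  refine le_antisymm (Padic.norm_int_le_one z) (not_lt.1 fun h1 => h ?_)
  exact_mod_cast Padic.norm_intCast_lt_one_iff.1 h1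

theorem lt_third {x : ℚ_[3]} (h : ‖x‖ < 1) : ‖x‖ ≤ 1 / 3 := by
  have := (Padic.norm_lt_pow_iff_norm_le_pow_sub_one x 0).1 (by simpa using h)
  simpa using this

/-- the units are `±1` modulo `3` -/
theorem sq_sub_one {z : ℚ_[3]} (h : ‖z‖ = 1) : ‖z ^ 2 - 1‖ < 1 := by
  set u : ℤ_[3] := ⟨z, h.le⟩ with hu
  have h0 : PadicInt.toZMod u ≠ 0 := by
    intro h0
    have h2 : u ∈ RingHom.ker (PadicInt.toZMod : ℤ_[3] →+* ZMod 3) := h0
    rw [PadicInt.ker_toZMod, IsLocalRing.mem_maximalIdeal, PadicInt.mem_nonunits] at h2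
    have h3 : ‖z‖ < 1 := h2
    linarith
  have h1 : PadicInt.toZMod (u ^ 2 - 1) = 0 := by
    rw [map_sub, map_pow, map_one]
    exact z3a _ h0
  have h2 : u ^ 2 - 1 ∈ RingHom.ker (PadicInt.toZMod : ℤ_[3] →+* ZMod 3) := h1
  rw [PadicInt.ker_toZMod, IsLocalRing.mem_maximalIdeal, PadicInt.mem_nonunits] at h2
  exact h2

/-- cubes: `z³ = -1` modulo `3` means `z = -1` modulo `3` -/
theorem cube_add_one {z : ℚ_[3]} (h : ‖z‖ ≤ 1) (h1 : ‖z ^ 3 + 1‖ < 1) : ‖z + 1‖ < 1 := by
  set u : ℤ_[3] := ⟨z, h⟩ with hu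
  have h2 : u ^ 3 + 1 ∈ RingHom.ker (PadicInt.toZMod : ℤ_[3] →+* ZMod 3) := by
    rw [PadicInt.ker_toZMod, IsLocalRing.mem_maximalIdeal, PadicInt.mem_nonunits]
    exact h1
  have h3 : (PadicInt.toZMod u) ^ 3 + 1 = 0 := by
    have h4 : PadicInt.toZMod (u ^ 3 + 1) = 0 := h2
    rwa [map_add, map_pow, map_one] at h4
  have h5 : PadicInt.toZMod (u + 1) = 0 := by
    rw [map_add, map_one]
    exact z3b _ h3
  have h6 : u + 1 ∈ RingHom.ker (PadicInt.toZMod : ℤ_[3] →+* ZMod 3) := h5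
  rw [PadicInt.ker_toZMod, IsLocalRing.mem_maximalIdeal, PadicInt.mem_nonunits] at h6
  exact h6

theorem not_three_dvd_tam (hE : S_E0) (hD3 : ¬ (3 : ℤ) ∣ D) : ¬ 3 ∣ tam (WD D) 3 := by
  have nD := nu D hD3
  have n2 : ‖(2 : ℚ_[3])‖ = 1 := by exact_mod_cast nu 2 (by norm_num)
  have n4 : ‖(4 : ℚ_[3])‖ = 1 := by exact_mod_cast nu 4 (by norm_num)
  -- the singular points
  have hsing : ∀ x y : ℚ_[3], SingRed (WD D) 3 x y → y ^ 2 + D * y = x ^ 3 →
      ‖x + 1‖ < 1 ∧ ‖2 * y + D‖ < 1 := by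
    intro x y h he
    rw [sing_iff] at h
    obtain ⟨h1, h2, -, h4⟩ := h
    refine ⟨cube_add_one h1 ?_, h4⟩
    have e : 4 * (x ^ 3 + 1) = (2 * y + D) ^ 2 - (D ^ 2 - 1) + 3 := by
      rw [← he]; ring
    have h5 : ‖4 * (x ^ 3 + 1)‖ < 1 := by
      rw [e]
      refine ladd (lsub ?_ (sq_sub_one nD)) ntlt
      rw [pow_two]
      exact lmul h4.le h4
    rwa [norm_mul, n4, one_mul] at h5
  have hnot : ∀ {P : PtP (WD D) 3}, P ∉ E0 (WD D) 3 → ∃ x y, At P x y ∧ ‖x + 1‖ < 1 ∧
      ‖2 * y + D‖ < 1 := by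
    intro P hP
    have hP0 : P ≠ 0 := fun h0 => hP (by rw [h0]; exact zero_mem _)
    obtain ⟨x, y, hA⟩ := exists_at hP0
    rw [mem_iff hE hA, not_not] at hP
    exact ⟨x, y, hA, hsing x y hP hA.eqn⟩
  -- a sum with slope of norm at least one is non-singular
  have hslope : ∀ {P : PtP (WD D) 3} {l x x' y3 : ℚ_[3]}, At P (l ^ 2 - x - x') y3 → 1 ≤ ‖l‖ →
      ‖x + 1‖ < 1 → ‖x' + 1‖ < 1 → P ∈ E0 (WD D) 3 := by
    intro P l x x' y3 hA hl hx hx'
    by_contra hcon
    rw [mem_iff hE hA, not_not] at hcon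
    obtain ⟨h1, -⟩ := hsing _ _ hcon hA.eqn
    rcases hl.lt_or_eq with h | h
    · have e : l ^ 2 - x - x' + 1 = l ^ 2 + (3 - (x + 1) - (x' + 1)) := by ring
      have h2 : 1 < ‖l ^ 2‖ := by
        rw [norm_pow]
        exact one_lt_pow₀ h (by norm_num)
      have h3 : ‖3 - (x + 1) - (x' + 1)‖ ≤ 1 := nsub (nsub ntlt.le hx.le) hx'.le
      rw [e, norm_eq_of_lt (lt_of_le_of_lt h3 h2)] at h1
      linarith
    · have e : l ^ 2 - x - x' + 1 = 4 + ((l ^ 2 - 1) - (x + 1) - (x' + 1)) := by ring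
      have h3 : ‖(l ^ 2 - 1) - (x + 1) - (x' + 1)‖ < 1 := lsub (lsub (sq_sub_one h.symm) hx) hx'
      rw [e, norm_eq_of_lt (by rw [n4]; exact h3), n4] at h1
      exact lt_irrefl _ h1
  have hdbl : ∀ {P : PtP (WD D) 3}, P ∉ E0 (WD D) 3 → P + P ∈ E0 (WD D) 3 := by
    intro P hP
    obtain ⟨x, y, hA, hx, hy⟩ := hnot hP
    by_cases hy0 : 2 * y + (D : ℚ_[3]) = 0
    · have h1 : -y - (D : ℚ_[3]) = y := by linear_combination -hy0
      have h2 := hA.neg
      rw [h1] at h2
      have h3 : P = -P := hA.ext h2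
      have h4 : P + P = 0 := by
        nth_rewrite 2 [h3]
        exact add_neg_cancel P
      rw [h4]
      exact zero_mem _
    · obtain ⟨y3, h3⟩ := hA.dbl hy0
      refine hslope h3 ?_ hx hx
      have nx : ‖x‖ = 1 := by
        have e : x = -1 + (x + 1) := by ring
        rw [e, norm_eq_of_lt (by rw [norm_neg, norm_one]; exact hx), norm_neg, norm_one]
      rw [norm_div, norm_mul, norm_pow, nx, nt, one_pow, mul_one,
        one_le_div (norm_pos_iff.2 hy0)]
      exact lt_third hy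
  have hadd : ∀ {P Q : PtP (WD D) 3}, P ∉ E0 (WD D) 3 → Q ∉ E0 (WD D) 3 →
      P - Q ∈ E0 (WD D) 3 := by
    intro P Q hP hQ
    have hPQ : P + Q ∈ E0 (WD D) 3 → P - Q ∈ E0 (WD D) 3 := by
      intro h
      have e : P - Q = (P + Q) - (Q + Q) := by abel
      rw [e]
      exact sub_mem h (hdbl hQ)
    obtain ⟨x, y, hA, hx, hy⟩ := hnot hP
    obtain ⟨x', y', hA', hx', hy'⟩ := hnot hQ
    have he := hA.eqn
    have he' := hA'.eqn
    by_cases hxx : x = x'
    · subst hxx
      have e1 : (y - y') * (y + y' + D) = 0 := by linear_combination he - he'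
      rcases mul_eq_zero.1 e1 with h | h
      · have h1 : y = y' := sub_eq_zero.1 h
        subst h1
        rw [hA.ext hA', sub_self]
        exact zero_mem _
      · apply hPQ
        have h1 : y = -y' - D := by linear_combination h
        rw [h1] at hA
        rw [hA.ext hA'.neg, neg_add_cancel]
        exact zero_mem _
    · apply hPQ
      obtain ⟨y3, h3⟩ := hA.add hA' hxx
      refine hslope h3 ?_ hx hx'
      have hxx0 : x - x' ≠ 0 := sub_ne_zero.2 hxx
      -- the quadratic factor has norm `1 / 3`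
      have hq : ‖x ^ 2 + x * x' + x' ^ 2‖ = 1 / 3 := by
        have e : x ^ 2 + x * x' + x' ^ 2 = 3 + ((x + 1) * (x + 1) + (x' + 1) * (x' + 1) +
          (x + 1) * (x' + 1) - 3 * (x + 1) - 3 * (x' + 1)) := by ring
        have hm : ∀ a b : ℚ_[3], ‖a‖ < 1 → ‖b‖ < 1 → ‖a * b‖ < 1 / 3 := by
          intro a b ha hb
          rw [norm_mul]
          have h1 := lt_third ha
          have h2 := lt_third hb
          nlinarith [norm_nonneg a, norm_nonneg b]
        have hr : ‖(x + 1) * (x + 1) + (x' + 1) * (x' + 1) +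
            (x + 1) * (x' + 1) - 3 * (x + 1) - 3 * (x' + 1)‖ < ‖(3 : ℚ_[3])‖ := by
          rw [nt, sub_eq_add_neg, sub_eq_add_neg]
          refine (IsUltrametricDist.norm_add_le_max _ _).trans_lt (max_lt
            ((IsUltrametricDist.norm_add_le_max _ _).trans_lt (max_lt
            ((IsUltrametricDist.norm_add_le_max _ _).trans_lt (max_lt
            ((IsUltrametricDist.norm_add_le_max _ _).trans_lt (max_lt ?_ ?_)) ?_)) ?_)) ?_)
          · exact hm _ _ hx hx
          · exact hm _ _ hx' hx'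
          · exact hm _ _ hx hx'
          · rw [norm_neg]; exact hm _ _ ntlt hx
          · rw [norm_neg]; exact hm _ _ ntlt hx'
        rw [e, norm_eq_of_lt hr, nt]
      have hs : ‖y + y' + D‖ ≤ 1 / 3 := by
        have e : 2 * (y + y' + D) = (2 * y + D) + (2 * y' + D) := by ring
        have h4 : ‖2 * (y + y' + (D : ℚ_[3]))‖ ≤ 1 / 3 := by
          rw [e]
          exact lt_third (ladd hy hy')
        rwa [norm_mul, n2, one_mul] at h4
      have hprod : ‖y - y'‖ * ‖y + y' + D‖ = ‖x - x'‖ * (1 / 3) := by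
        rw [← norm_mul, ← hq, ← norm_mul]
        congr 1
        linear_combination he - he'
      rw [norm_div, one_le_div (norm_pos_iff.2 hxx0)]
      nlinarith [norm_nonneg (y - y')]
  intro h3
  by_cases htop : ∀ P : PtP (WD D) 3, P ∈ E0 (WD D) 3
  · have h1 : E0 (WD D) 3 = ⊤ := by
      rw [eq_top_iff]
      intro P _
      exact htop P
    rw [tam, h1, AddSubgroup.index_top] at h3
    norm_num at h3
  · rw [not_forall] at htop
    obtain ⟨T, hT⟩ := htop
    have h1 : tam (WD D) 3 = 2 := by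
      rw [tam]
      refine index_of_gen _ T 2 Nat.prime_two hT ?_ ?_
      · rw [two_nsmul]
        exact hdbl hT
      · intro P
        by_cases hP : P ∈ E0 (WD D) 3
        · exact ⟨0, by simpa using hP⟩
        · exact ⟨1, by rw [one_zsmul]; exact hadd hP hT⟩
    rw [h1] at h3
    norm_num at h3

end three

theorem delta_eq (D : ℤ) : (WD D).Δ = -27 * D ^ 4 := by
  simp only [WD, WeierstrassCurve.Δ, WeierstrassCurve.b₂, WeierstrassCurve.b₄, WeierstrassCurve.b₆,
    WeierstrassCurve.b₈]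
  ring

/-- CT-TAM -/
theorem tamThm : S_TAM := by
  intro hE D hB
  obtain ⟨hD0, hD3, hcube⟩ := hB
  have h3 : Fact (Nat.Prime 3) := ⟨Nat.prime_three⟩
  refine ⟨tam (WD D) 3, not_three_dvd_tam hE (by exact_mod_cast hD3), ?_⟩
  have hfac : (WD (D : ℤ)).Δ.natAbs.primeFactors = insert 3 D.primeFactors := by
    rw [delta_eq, Int.natAbs_mul, Int.natAbs_pow, Int.natAbs_natCast]
    have e : Int.natAbs (-27) = 3 ^ 3 := rfl
    rw [e, Nat.primeFactors_mul (by norm_num) (pow_ne_zero 4 hD0),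
      Nat.primeFactors_pow _ (by norm_num), Nat.primeFactors_pow _ (by norm_num),
      Nat.Prime.primeFactors Nat.prime_three]
    rfl
  have hnot : 3 ∉ D.primeFactors := by
    intro h
    exact hD3 (Nat.dvd_of_mem_primeFactors h)
  rw [tamProd, hfac, Finset.prod_insert hnot, dif_pos Nat.prime_three]
  have hall : ∀ p ∈ D.primeFactors, (if h : p.Prime then (haveI := Fact.mk h; tam (WD D) p)
      else 1) = 3 := by
    intro p hp
    have hpp := Nat.prime_of_mem_primeFactors hp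
    rw [dif_pos hpp]
    have := Fact.mk hpp
    refine tam_dvd hE ?_ ?_ ?_
    · rintro rfl
      exact hnot hp
    · exact_mod_cast Nat.dvd_of_mem_primeFactors hp
    · intro h
      apply hcube p hpp
      exact_mod_cast h
  rw [Finset.prod_congr rfl hall, Finset.prod_const, mul_comm]

end Pool.Agent.Y145.CT
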